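import Pool.Agent.Lib.MP_aa7e4d_lc.Interfaces

/-!
# EMB: a model of the complete theory of `M` embeds elementarily in an ultrapower of `M`
-/

open FirstOrder FirstOrder.Language

namespace Pool.Agent.SFC.H8

variable {L : FirstOrder.Language.{0, 0}}

/-- a formula satisfied in a model of `Th(M)` is satisfied in `M` -/
theorem exists_realize {M N α : Type} [L.Structure M] [L.Structure N] [Nonempty M]
    (hN : N ⊨ L.completeTheory M) (θ : L.Formula α) (v : α → N) (h : θ.Realize v) :
    ∃ v' : α → M, θ.Realize v' := by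
  classical
  have h1 : N ⊨ θ.exClosure := by
    rw [Formula.realize_exClosure]
    exact ⟨v ∘ (↑), (BoundedFormula.realize_restrictFreeVar _ (by simp)).2 h⟩
  have h2 : M ⊨ θ.exClosure := (realize_iff_of_model_completeTheory M N _).1 h1
  rw [Formula.realize_exClosure] at h2
  obtain ⟨w, hw⟩ := h2
  have m0 : M := Classical.arbitrary M
  refine ⟨fun a => if ha : a ∈ θ.freeVarFinset then w ⟨a, ha⟩ else m0, ?_⟩
  refine (BoundedFormula.realize_restrictFreeVar (f := (id : θ.freeVarFinset → _)) _ ?_).1 hw
  intro a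
  simp

theorem emb : EmbStatement := by
  classical
  intro L M N _ _ _ _ hN
  let Θ := {θ : L.Formula N // θ.Realize (id : N → N)}
  have key : ∀ F : Finset Θ, ∃ v : N → M, ∀ θ ∈ F, θ.1.Realize v := by
    intro F
    let ψ : L.Formula N := Formula.iInf (fun θ : F => θ.1.1)
    have h1 : ψ.Realize (id : N → N) := by
      rw [Formula.realize_iInf]
      exact fun θ => θ.1.2
    obtain ⟨v, hv⟩ := exists_realize hN ψ _ h1
    rw [Formula.realize_iInf] at hv
    exact ⟨v, fun θ hθ => hv ⟨θ, hθ⟩⟩
  choose v hv using key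
  let u : Ultrafilter (Finset Θ) := Ultrafilter.of Filter.atTop
  have hu : ∀ θ : Θ, ∀ᶠ F in (u : Filter (Finset Θ)), θ.1.Realize (v F) := by
    intro θ
    have h1 : ∀ᶠ F in (Filter.atTop : Filter (Finset Θ)), θ.1.Realize (v F) := by
      filter_upwards [Filter.eventually_ge_atTop {θ}] with F hF
      exact hv F θ (hF (Finset.mem_singleton_self θ))
    exact Ultrafilter.of_le _ h1
  refine ⟨Finset Θ, u, ⟨⟨fun n => ((fun F => v F n : ∀ _ : Finset Θ, M) :
    (u : Filter (Finset Θ)).Product (fun _ : Finset Θ => M)), ?_⟩⟩⟩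
  intro n φ x
  have h1 : ∀ φ : L.Formula (Fin n), φ.Realize x →
      ∀ᶠ F in (u : Filter (Finset Θ)), φ.Realize (fun i => v F (x i)) := by
    intro φ hφ
    have h2 := hu ⟨φ.relabel x, by rw [Formula.realize_relabel]; exact hφ⟩
    filter_upwards [h2] with F hF
    rw [Formula.realize_relabel] at hF
    exact hF
  have h3 := Ultraproduct.realize_formula_cast (u := u) (M := fun _ : Finset Θ => M) φ
    (fun i F => v F (x i))
  refine Iff.trans ?_ (h3.trans ?_)
  · rfl
  · constructor
    · intro h
      by_contra hc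
      have h4 := h1 φ.not (by rw [Formula.realize_not]; exact hc)
      obtain ⟨F, hF1, hF2⟩ := (h.and h4).exists
      rw [Formula.realize_not] at hF2
      exact hF2 hF1
    · exact h1 φ

end Pool.Agent.SFC.H8
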